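import Pool.Agent.H63.G3.Stm

/-!
# G3 REG3: regularity of `Sym^a`
-/

set_option autoImplicit false

namespace Pool.Agent.H665.G3

open Pool.Agent.H63.G3

theorem key {d1 d2 a j k m k' : ℕ} (h1 : 0 < d1) (ha : a * Nat.gcd d1 d2 < d1 + d2)
    (hm : m ≤ a) (h : (j + m) * d1 + k * (d1 + d2) = j * d1 + k' * (d1 + d2)) : m = 0 := by
  have h2 : m * d1 + k * (d1 + d2) = k' * (d1 + d2) := by
    rw [add_mul] at h
    omega
  have h3 : d1 + d2 ∣ m * d1 := by
    have h4 : d1 + d2 ∣ m * d1 + k * (d1 + d2) := by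
      rw [h2]
      exact dvd_mul_left _ _
    exact (Nat.dvd_add_left (dvd_mul_left _ _)).1 h4
  have h5 : d1 + d2 ∣ m * Nat.gcd d1 d2 := by
    have h6 := Nat.dvd_gcd h3 (dvd_mul_left (d1 + d2) m)
    rw [Nat.gcd_mul_left] at h6
    rwa [Nat.gcd_self_add_right] at h6
  have h7 : m * Nat.gcd d1 d2 < d1 + d2 := (Nat.mul_le_mul_right _ hm).trans_lt ha
  have h8 : m * Nat.gcd d1 d2 = 0 := Nat.eq_zero_of_dvd_of_lt h5 h7
  rcases Nat.mul_eq_zero.1 h8 with h9 | h9
  · exact h9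
  · have := Nat.gcd_pos_of_pos_left d2 h1
    omega

theorem t_reg3 : S_REG3 := by
  intro E d1 d2 a hd ha e j k j' k' hj hj' h
  obtain ⟨h1, h2⟩ := hd e
  have hjj : j = j' := by
    rcases le_total j' j with hle | hle
    · obtain ⟨m, rfl⟩ := Nat.exists_eq_add_of_le hle
      have := key (j := j') (k := k) (m := m) (k' := k') h1 (ha e) (by omega) h
      omega
    · obtain ⟨m, rfl⟩ := Nat.exists_eq_add_of_le hle
      have := key (j := j) (k := k') (m := m) (k' := k) h1 (ha e) (by omega) h.symm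
      omega
  refine ⟨hjj, ?_⟩
  subst hjj
  have h3 : k * (d1 e + d2 e) = k' * (d1 e + d2 e) := Nat.add_left_cancel h
  exact Nat.eq_of_mul_eq_mul_right (by omega) h3

end Pool.Agent.H665.G3
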